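import Pool.Agent.Helper58.PB.StB

/-!
# Project PB, module ER2: comparison of the primes and the model on average over the coefficients
-/

set_option autoImplicit false

namespace Pool.Agent.Helper49.PB

open Finset
open Pool.Agent.Helper58.PB
open Pool.Agent.Helper48.BK (win Sx ex)

/-- the windowed function, cut off outside `[lo, N]` -/
noncomputable def cut_ER2 (lo N : ℕ) (f : ℕ → ℝ) (p q h a n : ℕ) : ℝ :=
  if lo ≤ a ∧ a ≤ N then win f p q h a n else 0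

lemma T3_sw23_ER2 (f g k : ℕ → ℝ) (X Y Z : ℕ) (u v w D : ℤ) :
    T3 f g k X Y Z u v w D = T3 f k g X Z Y u w v D := by
  unfold T3
  refine Finset.sum_congr rfl (fun n _ => ?_)
  rw [Finset.sum_comm]
  refine Finset.sum_congr rfl (fun l _ => Finset.sum_congr rfl (fun m _ => ?_))
  have h1 : (u * (n : ℤ) + v * m + w * l = D) ↔ (u * (n : ℤ) + w * l + v * m = D) := by
    constructor <;> intro h <;> linear_combination h
  by_cases h2 : u * (n : ℤ) + w * l + v * m = D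
  · rw [if_pos (h1.2 h2), if_pos h2]
    ring
  · rw [if_neg (fun h => h2 (h1.1 h)), if_neg h2]

lemma T3_sw12_ER2 (f g k : ℕ → ℝ) (X Y Z : ℕ) (u v w D : ℤ) :
    T3 f g k X Y Z u v w D = T3 g f k Y X Z v u w D := by
  unfold T3
  rw [Finset.sum_comm]
  refine Finset.sum_congr rfl (fun m _ => Finset.sum_congr rfl (fun n _ =>
    Finset.sum_congr rfl (fun l _ => ?_)))
  have h1 : (u * (n : ℤ) + v * m + w * l = D) ↔ (v * (m : ℤ) + u * n + w * l = D) := by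
    constructor <;> intro h <;> linear_combination h
  by_cases h2 : v * (m : ℤ) + u * n + w * l = D
  · rw [if_pos (h1.2 h2), if_pos h2]
    ring
  · rw [if_neg (fun h => h2 (h1.1 h)), if_neg h2]

lemma T3_sgn_ER2 (f g k : ℕ → ℝ) (X Y Z : ℕ) (u v w D e : ℤ) (he : e = 1 ∨ e = -1) :
    T3 f g k X Y Z u v w D = T3 f g k X Y Z (e * u) (e * v) (e * w) (e * D) := by
  unfold T3
  refine Finset.sum_congr rfl (fun n _ => Finset.sum_congr rfl (fun m _ =>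
    Finset.sum_congr rfl (fun l _ => ?_)))
  have h1 : (u * (n : ℤ) + v * m + w * l = D) ↔
      (e * u * (n : ℤ) + e * v * m + e * w * l = e * D) := by
    rcases he with rfl | rfl
    · simp
    · constructor <;> intro h <;> linear_combination (-1) * h
  by_cases h2 : u * (n : ℤ) + v * m + w * l = D
  · rw [if_pos (h1.1 h2), if_pos h2]
  · rw [if_neg (fun h => h2 (h1.2 h)), if_neg h2]

lemma T3_tel_ER2 (f1 f2 f3 g1 g2 g3 : ℕ → ℝ) (X Y Z : ℕ) (u v w D : ℤ) :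
    T3 f1 f2 f3 X Y Z u v w D - T3 g1 g2 g3 X Y Z u v w D =
      T3 (fun n => f1 n - g1 n) f2 f3 X Y Z u v w D +
        T3 g1 (fun n => f2 n - g2 n) f3 X Y Z u v w D +
        T3 g1 g2 (fun n => f3 n - g3 n) X Y Z u v w D := by
  unfold T3
  rw [← Finset.sum_sub_distrib, ← Finset.sum_add_distrib, ← Finset.sum_add_distrib]
  refine Finset.sum_congr rfl (fun n _ => ?_)
  rw [← Finset.sum_sub_distrib, ← Finset.sum_add_distrib, ← Finset.sum_add_distrib]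
  refine Finset.sum_congr rfl (fun m _ => ?_)
  rw [← Finset.sum_sub_distrib, ← Finset.sum_add_distrib, ← Finset.sum_add_distrib]
  refine Finset.sum_congr rfl (fun l _ => ?_)
  by_cases h : u * (n : ℤ) + v * m + w * l = D
  · simp only [if_pos h]
    ring
  · simp only [if_neg h]
    ring

lemma win_sub_ER2 (f g : ℕ → ℝ) (p q h a : ℕ) :
    (fun n => win f p q h a n - win g p q h a n) = win (fun n => f n - g n) p q h a := by
  funext n
  unfold win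
  split_ifs <;> ring

lemma cut_bd_ER2 (f : ℕ → ℝ) (X h lo N K p q : ℕ) (M : ℝ) (hlo : 1 ≤ lo) (hNK : N ≤ lo * K)
    (h1 : 28 * h ≤ lo * X) (h2 : lo * X ≤ 29 * h) (hp : 6 ≤ p) (hq : q ≤ 28) (hM : 0 ≤ M)
    (hf : ∀ n ≤ X, X ≤ 5 * K * n → |f n| ≤ M) (a n : ℕ) :
    |cut_ER2 lo N f p q h a n| ≤ M := by
  unfold cut_ER2 win
  split_ifs with h3 h4
  · apply hf
    · have h5 : a * n ≤ a * X :=
        calc a * n ≤ q * h := h4.2
          _ ≤ 28 * h := Nat.mul_le_mul_right _ hq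
          _ ≤ lo * X := h1
          _ ≤ a * X := Nat.mul_le_mul_right _ h3.1
      exact Nat.le_of_mul_le_mul_left h5 (by omega)
    · have h6 : 6 * h < a * n := lt_of_le_of_lt (Nat.mul_le_mul_right _ hp) h4.1
      have h7 : a * n ≤ lo * K * n := Nat.mul_le_mul_right _ (h3.2.trans hNK)
      have h8 : lo * X ≤ lo * (5 * K * n) := by
        calc lo * X ≤ 29 * h := h2
          _ ≤ 5 * (6 * h) := by omega
          _ ≤ 5 * (a * n) := by omega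
          _ ≤ 5 * (lo * K * n) := by omega
          _ = lo * (5 * K * n) := by ring
      exact Nat.le_of_mul_le_mul_left h8 (by omega)
  · simpa using hM
  · simpa using hM

lemma cut_Sx_ER2 (E : ℕ → ℝ) (X h lo N p q : ℕ) (δ : ℝ) (hlo : 1 ≤ lo)
    (h1 : 28 * h ≤ lo * X) (hq : q ≤ 28) (hδ : 0 ≤ δ)
    (hE : ∀ y ≤ X, ∀ α, ‖Sx E y α‖ ≤ δ * X) (a : ℕ) (α : ℝ) :
    ‖Sx (cut_ER2 lo N E p q h a) X α‖ ≤ 2 * δ * X := by
  have hX0 : (0 : ℝ) ≤ X := Nat.cast_nonneg X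
  have hzero : (∀ n ∈ Ioc 0 X, cut_ER2 lo N E p q h a n = 0) →
      ‖Sx (cut_ER2 lo N E p q h a) X α‖ ≤ 2 * δ * X := by
    intro hz
    have h1 : Sx (cut_ER2 lo N E p q h a) X α = 0 := by
      unfold Sx
      apply Finset.sum_eq_zero
      intro n hn
      rw [hz n hn]
      simp
    rw [h1, norm_zero]
    positivity
  by_cases ha : lo ≤ a ∧ a ≤ N
  · by_cases hpq : p ≤ q
    · have ha0 : 0 < a := by omega
      have hy2 : q * h / a ≤ X := by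
        apply Nat.div_le_of_le_mul
        calc q * h ≤ 28 * h := Nat.mul_le_mul_right _ hq
          _ ≤ lo * X := h1
          _ ≤ a * X := Nat.mul_le_mul_right _ ha.1
      have hy1 : p * h / a ≤ q * h / a := Nat.div_le_div_right (Nat.mul_le_mul_right _ hpq)
      have h1 : Sx (cut_ER2 lo N E p q h a) X α = Sx E (q * h / a) α - Sx E (p * h / a) α := by
        unfold Sx
        have h2 : Ioc 0 (q * h / a) = Ioc 0 (p * h / a) ∪ Ioc (p * h / a) (q * h / a) := by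
          rw [Finset.Ioc_union_Ioc_eq_Ioc (Nat.zero_le _) hy1]
        have h3 : Disjoint (Ioc 0 (p * h / a)) (Ioc (p * h / a) (q * h / a)) := by
          rw [Finset.disjoint_left]
          intro n hn hn2
          rw [Finset.mem_Ioc] at hn hn2
          omega
        have h4 : Ioc (p * h / a) (q * h / a) =
            (Ioc 0 X).filter (fun n => p * h < a * n ∧ a * n ≤ q * h) := by
          ext n
          rw [Finset.mem_filter, Finset.mem_Ioc, Finset.mem_Ioc, Nat.div_lt_iff_lt_mul ha0,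
            Nat.le_div_iff_mul_le ha0, mul_comm n a]
          constructor
          · rintro ⟨h5, h6⟩
            refine ⟨⟨?_, ?_⟩, h5, h6⟩
            · rcases Nat.eq_zero_or_pos n with h7 | h7
              · rw [h7] at h5
                omega
              · exact h7
            · have h8 : n ≤ q * h / a := by
                rw [Nat.le_div_iff_mul_le ha0, mul_comm]
                exact h6
              exact h8.trans hy2
          · rintro ⟨_, h5⟩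
            exact h5
        rw [h2, Finset.sum_union h3, add_sub_cancel_left, h4, Finset.sum_filter]
        apply Finset.sum_congr rfl
        intro n _
        unfold cut_ER2 win
        rw [if_pos ha]
        split_ifs
        · rfl
        · simp
      rw [h1]
      calc ‖Sx E (q * h / a) α - Sx E (p * h / a) α‖ ≤
          ‖Sx E (q * h / a) α‖ + ‖Sx E (p * h / a) α‖ := norm_sub_le _ _
        _ ≤ δ * X + δ * X := add_le_add (hE _ hy2 α) (hE _ (hy1.trans hy2) α)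
        _ = 2 * δ * X := by ring
    · apply hzero
      intro n _
      unfold cut_ER2 win
      rw [if_pos ha, if_neg]
      rintro ⟨h2, h3⟩
      have h4 : q * h ≤ p * h := Nat.mul_le_mul_right _ (by omega)
      omega
  · apply hzero
    intro n _
    unfold cut_ER2
    rw [if_neg ha]

/-- the final numerical estimate -/
lemma num_ER2 (AB P R h K L τ M δ S Q : ℝ) (hAB : 0 ≤ AB) (hP0 : 0 ≤ P) (hR0 : 0 ≤ R)
    (hP : P ≤ 29 * K * h) (hR : R ≤ 29 * K * h) (hh : 0 < h) (hK : 1 ≤ K) (hL : 1 ≤ L)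
    (hτ : 1 ≤ τ) (hM : 1 ≤ M) (hδ : 0 ≤ δ)
    (hS : S ≤ (2 * M) ^ 4 * (AB * (P * R) + 2 * P ^ 2 * R * (2 * δ) * τ * (L * L)))
    (hQ : Q ≤ 30 * K ^ 2 * h * L) :
    √S * (M * √Q) ≤ 7000 * M ^ 3 * K ^ 3 * τ ^ 2 * L ^ 2 * h ^ 2 * √(AB / h + δ) := by
  have hM0 : 0 ≤ M := by linarith
  have hK0 : 0 ≤ K := by linarith
  have hL0 : 0 ≤ L := by linarith
  have hτ0 : 0 ≤ τ := by linarith
  set Θ : ℝ := AB / h + δ with hΘ
  have hΘ0 : 0 ≤ Θ := by positivity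
  have hS2 : S ≤ (2 * M) ^ 4 * (AB * ((29 * K * h) * (29 * K * h)) +
      2 * (29 * K * h) ^ 2 * (29 * K * h) * (2 * δ) * τ * (L * L)) := by
    refine hS.trans ?_
    gcongr
  have hfin : S * Q ≤ (7000 * M ^ 2 * K ^ 3 * τ ^ 2 * L ^ 2 * h ^ 2) ^ 2 * Θ ∨ S < 0 := by
    rcases lt_or_ge S 0 with hneg | hpos
    · exact Or.inr hneg
    left
    have e1 : AB * ((29 * K * h) * (29 * K * h)) = 841 * K ^ 2 * h ^ 3 * (AB / h) := by
      field_simp
      ring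
    have e2 : S ≤ (2 * M) ^ 4 * (100000 * K ^ 3 * τ * L ^ 2 * h ^ 3 * Θ) := by
      refine hS2.trans ?_
      rw [e1]
      have i1 : 841 * K ^ 2 * h ^ 3 * (AB / h) ≤ 100000 * K ^ 3 * τ * L ^ 2 * h ^ 3 * (AB / h) := by
        have j1 : K ^ 2 ≤ K ^ 3 := pow_le_pow_right₀ hK (by norm_num)
        have j2 : 1 ≤ L ^ 2 := one_le_pow₀ hL
        calc 841 * K ^ 2 * h ^ 3 * (AB / h) ≤ 100000 * K ^ 3 * 1 * 1 * h ^ 3 * (AB / h) := by
              have : 841 * K ^ 2 ≤ 100000 * K ^ 3 * 1 * 1 := by nlinarith [pow_pos (by linarith : 0 < K) 3]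
              gcongr
          _ ≤ 100000 * K ^ 3 * τ * L ^ 2 * h ^ 3 * (AB / h) := by gcongr
      have i2 : 2 * (29 * K * h) ^ 2 * (29 * K * h) * (2 * δ) * τ * (L * L) ≤
          100000 * K ^ 3 * τ * L ^ 2 * h ^ 3 * δ := by
        have : 0 ≤ K ^ 3 * h ^ 3 * δ * τ * L ^ 2 := by positivity
        nlinarith
      calc (2 * M) ^ 4 * (841 * K ^ 2 * h ^ 3 * (AB / h) +
            2 * (29 * K * h) ^ 2 * (29 * K * h) * (2 * δ) * τ * (L * L)) ≤
          (2 * M) ^ 4 * (100000 * K ^ 3 * τ * L ^ 2 * h ^ 3 * (AB / h) +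
            100000 * K ^ 3 * τ * L ^ 2 * h ^ 3 * δ) := by gcongr
        _ = (2 * M) ^ 4 * (100000 * K ^ 3 * τ * L ^ 2 * h ^ 3 * Θ) := by
          rw [hΘ]
          ring
    calc S * Q ≤ S * (30 * K ^ 2 * h * L) := by gcongr
      _ ≤ (2 * M) ^ 4 * (100000 * K ^ 3 * τ * L ^ 2 * h ^ 3 * Θ) * (30 * K ^ 2 * h * L) := by gcongr
      _ = 48000000 * (M ^ 4 * h ^ 4 * Θ) * (K ^ 5 * τ * L ^ 3) := by ring
      _ ≤ 48000000 * (M ^ 4 * h ^ 4 * Θ) * (K ^ 6 * τ ^ 4 * L ^ 4) := by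
          have j1 : K ^ 5 ≤ K ^ 6 := pow_le_pow_right₀ hK (by norm_num)
          have j2 : τ ≤ τ ^ 4 := le_self_pow₀ hτ (by norm_num)
          have j3 : L ^ 3 ≤ L ^ 4 := pow_le_pow_right₀ hL (by norm_num)
          gcongr
      _ ≤ 49000000 * (M ^ 4 * h ^ 4 * Θ) * (K ^ 6 * τ ^ 4 * L ^ 4) := by
          have : 0 ≤ (M ^ 4 * h ^ 4 * Θ) * (K ^ 6 * τ ^ 4 * L ^ 4) := by positivity
          linarith
      _ = (7000 * M ^ 2 * K ^ 3 * τ ^ 2 * L ^ 2 * h ^ 2) ^ 2 * Θ := by ring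
  rcases hfin with hfin | hneg
  · rcases lt_or_ge S 0 with hS0 | hS0
    · rw [Real.sqrt_eq_zero_of_nonpos hS0.le, zero_mul]
      positivity
    calc √S * (M * √Q) = M * √(S * Q) := by
          rw [Real.sqrt_mul hS0]
          ring
      _ ≤ M * √((7000 * M ^ 2 * K ^ 3 * τ ^ 2 * L ^ 2 * h ^ 2) ^ 2 * Θ) := by gcongr
      _ = 7000 * M ^ 3 * K ^ 3 * τ ^ 2 * L ^ 2 * h ^ 2 * √Θ := by
          rw [Real.sqrt_mul (by positivity), Real.sqrt_sq (by positivity)]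
          ring
  · rw [Real.sqrt_eq_zero_of_nonpos hneg.le, zero_mul]
    positivity

lemma core_ER2 (hBi : StBi2) (hDu : StDu2) (E : ℕ → ℝ) (G W : ℕ → ℕ → ℝ)
    (U V X h lo₁ A B lo N m K T p q : ℕ) (M δ : ℝ) (s t : ℤ) (D : ℕ → ℕ → ℕ → ℤ)
    (hh : 1 ≤ h) (hlo₁ : 1 ≤ lo₁) (hA : lo₁ ≤ A) (hAK : A ≤ lo₁ * K) (hU1 : 28 * h ≤ lo₁ * U)
    (hU2 : lo₁ * U ≤ 29 * h) (hB : 1 ≤ B) (hV : 1 ≤ V) (hBV : B * V ≤ 29 * K * h)
    (hlo : 1 ≤ lo) (hN : lo ≤ N) (hNK : N ≤ lo * K) (hX : lo * X ≤ 29 * h) (hAB : A * B = N * m)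
    (hAm : A ≤ m) (hBm : B ≤ m) (hNm : N ≤ m) (hNmh : N * m ≤ h) (hp : 6 ≤ p) (hq : q ≤ 28)
    (hs : s = 1 ∨ s = -1) (ht : t = 1 ∨ t = -1) (hM : 1 ≤ M) (hδ : 0 ≤ δ)
    (hT : ∀ n : ℕ, 1 ≤ n → n ≤ U → n.divisors.card ≤ T)
    (hE : ∀ n ≤ U, U ≤ 5 * K * n → |E n| ≤ 2 * M) (hG : ∀ b n, |G b n| ≤ 2 * M)
    (hW : ∀ c n, |W c n| ≤ M) (hSx : ∀ y ≤ U, ∀ α, ‖Sx E y α‖ ≤ δ * U) :
    ∑ a ∈ Icc 1 A, ∑ b ∈ Icc 1 B, ∑ c ∈ Icc lo N,
      |T3 (cut_ER2 lo₁ A E p q h a) (G b) (W c) U V X a (s * b) (t * c) (D a b c)| ≤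
    7000 * M ^ 3 * (K : ℝ) ^ 3 * T * (1 + Real.log m) ^ 2 * (h : ℝ) ^ 2 *
      √((N : ℝ) * m / h + δ) := by
  have hA1 : 1 ≤ A := hlo₁.trans hA
  have hN1 : 1 ≤ N := hlo.trans hN
  have hm1 : 1 ≤ m := hN1.trans hNm
  have hU : 1 ≤ U := by
    rcases Nat.eq_zero_or_pos U with h0 | h0
    · rw [h0, mul_zero] at hU1
      omega
    · exact h0
  have hK1 : 1 ≤ K := by
    rcases Nat.eq_zero_or_pos K with h0 | h0
    · rw [h0, mul_zero] at hAK
      omega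
    · exact h0
  have hT1 : 1 ≤ T := by
    have := hT 1 le_rfl hU
    simpa using this
  have hM0 : 0 ≤ M := by linarith
  have hR : ∀ x : ℕ, 1 ≤ x → (1 : ℝ) ≤ x := fun x hx => by exact_mod_cast hx
  have hd := hDu (cut_ER2 lo₁ A E p q h) G W U V X A B lo N M s t D hlo hN hM0 hs ht hW
  refine hd.trans ?_
  have hb := hBi (cut_ER2 lo₁ A E p q h) G U V A B T (2 * M) (2 * δ) s hU hV hA1 hB (by linarith)
    (by linarith) hs
    (cut_bd_ER2 E U h lo₁ A K p q (2 * M) hlo₁ hAK hU1 hU2 hp hq (by linarith) hE) hG hT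
    (fun a _ α => cut_Sx_ER2 E U h lo₁ A p q δ hlo₁ hU1 hq hδ hSx a α)
  have hlogm : ∀ x : ℕ, 1 ≤ x → x ≤ m → 0 ≤ 1 + Real.log x ∧ 1 + Real.log x ≤ 1 + Real.log m := by
    intro x hx1 hxm
    have h1 := Real.log_nonneg (hR x hx1)
    have h2 : Real.log x ≤ Real.log m := Real.log_le_log (by linarith [hR x hx1]) (by exact_mod_cast hxm)
    exact ⟨by linarith, by linarith⟩
  have hL1 : 1 ≤ 1 + Real.log m := by
    have := Real.log_nonneg (hR m hm1)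
    linarith
  have hsqT : (1 : ℝ) ≤ √T := by
    rw [Real.one_le_sqrt]
    exact hR T hT1
  have hh0 : (0 : ℝ) < h := by
    have := hR h hh
    linarith
  have hS : (A : ℝ) * B * ∑ a ∈ Icc 1 A, ∑ b ∈ Icc 1 B, Q2 (cut_ER2 lo₁ A E p q h a) (G b) U V a b s ≤
      (2 * M) ^ 4 * (((N : ℝ) * m) * (((A : ℝ) * U) * ((B : ℝ) * V)) +
        2 * ((A : ℝ) * U) ^ 2 * ((B : ℝ) * V) * (2 * δ) * √T *
          ((1 + Real.log m) * (1 + Real.log m))) := by
    have hABr : (A : ℝ) * B = N * m := by exact_mod_cast hAB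
    calc _ ≤ (A : ℝ) * B * ((2 * M) ^ 4 * ((A : ℝ) * B * U * V +
          2 * A * (U : ℝ) ^ 2 * V * (2 * δ) * √(T : ℝ) * ((1 + Real.log A) * (1 + Real.log B)))) := by
            gcongr
      _ ≤ (A : ℝ) * B * ((2 * M) ^ 4 * ((A : ℝ) * B * U * V +
          2 * A * (U : ℝ) ^ 2 * V * (2 * δ) * √(T : ℝ) * ((1 + Real.log m) * (1 + Real.log m)))) := by
            obtain ⟨l1, l2⟩ := hlogm A hA1 hAm
            obtain ⟨l3, l4⟩ := hlogm B hB hBm
            gcongr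
      _ = (2 * M) ^ 4 * (((A : ℝ) * B) * (((A : ℝ) * U) * ((B : ℝ) * V)) +
        2 * ((A : ℝ) * U) ^ 2 * ((B : ℝ) * V) * (2 * δ) * √T *
          ((1 + Real.log m) * (1 + Real.log m))) := by ring
      _ = _ := by rw [hABr]
  have hlo0 : (0 : ℝ) < lo := by
    have := hR lo hlo
    linarith
  have hNKr : (N : ℝ) ≤ lo * K := by exact_mod_cast hNK
  have hXr : (lo : ℝ) * X ≤ 29 * h := by exact_mod_cast hX
  have hK1r := hR K hK1
  have hQ : (N : ℝ) ^ 2 * (1 + Real.log N) * X / lo + (N : ℝ) ^ 2 ≤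
      30 * (K : ℝ) ^ 2 * h * (1 + Real.log m) := by
    obtain ⟨l1, l2⟩ := hlogm N hN1 hNm
    have q1 : (N : ℝ) ^ 2 * (1 + Real.log N) * X / lo ≤ 29 * (K : ℝ) ^ 2 * h * (1 + Real.log m) := by
      rw [div_le_iff₀ hlo0]
      calc (N : ℝ) ^ 2 * (1 + Real.log N) * X ≤ (lo * K) ^ 2 * (1 + Real.log m) * X := by gcongr
        _ = (K : ℝ) ^ 2 * (lo * X) * (1 + Real.log m) * lo := by ring
        _ ≤ (K : ℝ) ^ 2 * (29 * h) * (1 + Real.log m) * lo := by gcongr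
        _ = 29 * (K : ℝ) ^ 2 * h * (1 + Real.log m) * lo := by ring
    have q2 : (N : ℝ) ^ 2 ≤ (K : ℝ) ^ 2 * h * (1 + Real.log m) := by
      have q3 : (N : ℝ) ^ 2 ≤ h := by
        have q4 : N * N ≤ h := (Nat.mul_le_mul_left N hNm).trans hNmh
        have q5 : (N : ℝ) * N ≤ h := by exact_mod_cast q4
        rw [sq]
        exact q5
      have q6 : (1 : ℝ) ≤ (K : ℝ) ^ 2 := one_le_pow₀ hK1r
      calc (N : ℝ) ^ 2 ≤ h := q3
        _ = 1 * h * 1 := by ring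
        _ ≤ (K : ℝ) ^ 2 * h * (1 + Real.log m) := by gcongr
    linarith
  have hP : (A : ℝ) * U ≤ 29 * K * h := by
    have p1 : A * U ≤ 29 * K * h := by
      calc A * U ≤ lo₁ * K * U := Nat.mul_le_mul_right _ hAK
        _ = K * (lo₁ * U) := by ring
        _ ≤ K * (29 * h) := Nat.mul_le_mul_left _ hU2
        _ = 29 * K * h := by ring
    exact_mod_cast p1
  have hBVr : (B : ℝ) * V ≤ 29 * K * h := by exact_mod_cast hBV
  have hfin := num_ER2 ((N : ℝ) * m) ((A : ℝ) * U) ((B : ℝ) * V) h K (1 + Real.log m) (√T) M δ _ _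
    (by positivity) (by positivity) (by positivity) hP hBVr hh0 hK1r hL1 hsqT hM hδ hS hQ
  refine hfin.trans (le_of_eq ?_)
  rw [Real.sq_sqrt (Nat.cast_nonneg T)]

/-- enlarging the index sets -/
lemma enl_ER2 (φ : ℕ → ℕ → ℕ → ℝ) (hφ : ∀ a b c, 0 ≤ φ a b c) (l₁ A l₂ B l N : ℕ) (h1 : 1 ≤ l₁)
    (h2 : 1 ≤ l₂) :
    ∑ a ∈ Icc l₁ A, ∑ b ∈ Icc l₂ B, ∑ c ∈ Icc l N, φ a b c ≤
      ∑ a ∈ Icc 1 A, ∑ b ∈ Icc 1 B, ∑ c ∈ Icc l N, φ a b c := by
  calc _ ≤ ∑ a ∈ Icc l₁ A, ∑ b ∈ Icc 1 B, ∑ c ∈ Icc l N, φ a b c := by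
        apply Finset.sum_le_sum
        intro a _
        apply Finset.sum_le_sum_of_subset_of_nonneg (Finset.Icc_subset_Icc_left h2)
        intro b _ _
        exact Finset.sum_nonneg fun c _ => hφ a b c
    _ ≤ _ := by
        apply Finset.sum_le_sum_of_subset_of_nonneg (Finset.Icc_subset_Icc_left h1)
        intro a _ _
        exact Finset.sum_nonneg fun b _ => Finset.sum_nonneg fun c _ => hφ a b c

theorem hEr2 (hBi : StBi2) (hDu : StDu2) (_hCo : StCo2) : StEr2 := by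
  intro f g k X Y h lo N lo' m K T p₁ q₁ p₂ q₂ p₃ q₃ s t M δ D hh hlo hN hNK hlo' hm hmK hNm hNmh
    hX1 hX2 hY1 hY2 hp₁ hp₂ hp₃ hq₁ hq₂ hq₃ hs ht hM hδ hTX hTY hfX hgX hfY hkY hSX hSY
  have hM0 : 0 ≤ M := by linarith
  have hN1 : 1 ≤ N := hlo.trans hN
  have hm1 : 1 ≤ m := hN1.trans hNm
  have hX : 1 ≤ X := by
    rcases Nat.eq_zero_or_pos X with h0 | h0
    · rw [h0, mul_zero] at hX1
      omega
    · exact h0
  have hY : 1 ≤ Y := by
    rcases Nat.eq_zero_or_pos Y with h0 | h0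
    · rw [h0, mul_zero] at hY1
      omega
    · exact h0
  have hmY : m * Y ≤ 29 * K * h := by
    calc m * Y ≤ lo' * K * Y := Nat.mul_le_mul_right _ hmK
      _ = K * (lo' * Y) := by ring
      _ ≤ K * (29 * h) := Nat.mul_le_mul_left _ hY2
      _ = 29 * K * h := by ring
  have hNX : N * X ≤ 29 * K * h := by
    calc N * X ≤ lo * K * X := Nat.mul_le_mul_right _ hNK
      _ = K * (lo * X) := by ring
      _ ≤ K * (29 * h) := Nat.mul_le_mul_left _ hX2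
      _ = 29 * K * h := by ring
  set E : ℕ → ℝ := fun n => f n - g n with hE
  set F : ℕ → ℝ := fun n => f n - k n with hF
  have hEb : ∀ n ≤ X, X ≤ 5 * K * n → |E n| ≤ 2 * M := by
    intro n hn hn2
    calc |f n - g n| ≤ |f n| + |g n| := abs_sub _ _
      _ ≤ M + M := add_le_add (hfX n hn hn2) (hgX n hn hn2)
      _ = 2 * M := by ring
  have hFb : ∀ n ≤ Y, Y ≤ 5 * K * n → |F n| ≤ 2 * M := by
    intro n hn hn2
    calc |f n - k n| ≤ |f n| + |k n| := abs_sub _ _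
      _ ≤ M + M := add_le_add (hfY n hn hn2) (hkY n hn hn2)
      _ = 2 * M := by ring
  have bfX : ∀ p q : ℕ, 6 ≤ p → q ≤ 28 → ∀ a n, |cut_ER2 lo N f p q h a n| ≤ M := fun p q hp hq =>
    cut_bd_ER2 f X h lo N K p q M hlo hNK hX1 hX2 hp hq hM0 hfX
  have bgX : ∀ p q : ℕ, 6 ≤ p → q ≤ 28 → ∀ a n, |cut_ER2 lo N g p q h a n| ≤ M := fun p q hp hq =>
    cut_bd_ER2 g X h lo N K p q M hlo hNK hX1 hX2 hp hq hM0 hgX
  have bfY : ∀ p q : ℕ, 6 ≤ p → q ≤ 28 → ∀ a n, |cut_ER2 lo' m f p q h a n| ≤ M := fun p q hp hq =>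
    cut_bd_ER2 f Y h lo' m K p q M hlo' hmK hY1 hY2 hp hq hM0 hfY
  have hst : s * t = 1 ∨ s * t = -1 := by
    rcases hs with rfl | rfl <;> rcases ht with rfl | rfl <;> simp
  have hts : t * s = 1 ∨ t * s = -1 := by
    rcases hs with rfl | rfl <;> rcases ht with rfl | rfl <;> simp
  have h1 := core_ER2 hBi hDu E (cut_ER2 lo' m f p₃ q₃ h) (cut_ER2 lo N f p₂ q₂ h) X Y X h lo N m
    lo N m K T p₁ q₁ M δ t s (fun a c b => D a b c) hh hlo hN hNK hX1 hX2 hm1 hY hmY hlo hN hNK hX2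
    rfl hNm le_rfl hNm hNmh hp₁ hq₁ ht hs hM hδ hTX hEb
    (fun a n => (bfY p₃ q₃ hp₃ hq₃ a n).trans (by linarith)) (bfX p₂ q₂ hp₂ hq₂) hSX
  have h2 := core_ER2 hBi hDu E (cut_ER2 lo' m f p₃ q₃ h) (cut_ER2 lo N g p₁ q₁ h) X Y X h lo N m
    lo N m K T p₂ q₂ M δ (s * t) s (fun b c a => s * D a b c) hh hlo hN hNK hX1 hX2 hm1 hY hmY hlo
    hN hNK hX2 rfl hNm le_rfl hNm hNmh hp₂ hq₂ hst hs hM hδ hTX hEb
    (fun a n => (bfY p₃ q₃ hp₃ hq₃ a n).trans (by linarith)) (bgX p₁ q₁ hp₁ hq₁) hSX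
  have h3 := core_ER2 hBi hDu F (cut_ER2 lo N g p₁ q₁ h) (cut_ER2 lo N g p₂ q₂ h) Y X X h lo' m N
    lo N m K T p₃ q₃ M δ t (t * s) (fun c a b => t * D a b c) hh hlo' hm hmK hY1 hY2 hN1 hX hNX hlo
    hN hNK hX2 (mul_comm m N) le_rfl hNm hNm hNmh hp₃ hq₃ ht hts hM hδ hTY hFb
    (fun a n => (bgX p₁ q₁ hp₁ hq₁ a n).trans (by linarith)) (bgX p₂ q₂ hp₂ hq₂) hSY
  have hcut : ∀ (φ : ℕ → ℝ) (p q l₁ A a : ℕ), a ∈ Icc l₁ A → win φ p q h a = cut_ER2 l₁ A φ p q h a := by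
    intro φ p q l₁ A a haa
    rw [Finset.mem_Icc] at haa
    funext n
    unfold cut_ER2
    rw [if_pos haa]
  have h4 : ∑ a ∈ Icc lo N, ∑ b ∈ Icc lo N, ∑ c ∈ Icc lo' m,
      |T3 (win f p₁ q₁ h a) (win f p₂ q₂ h b) (win f p₃ q₃ h c) X X Y a (s * b) (t * c) (D a b c) -
        T3 (win g p₁ q₁ h a) (win g p₂ q₂ h b) (win k p₃ q₃ h c) X X Y a (s * b) (t * c) (D a b c)| ≤
      (∑ a ∈ Icc lo N, ∑ b ∈ Icc lo N, ∑ c ∈ Icc lo' m,
        |T3 (cut_ER2 lo N E p₁ q₁ h a) (cut_ER2 lo' m f p₃ q₃ h c) (cut_ER2 lo N f p₂ q₂ h b) X Y X a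
          (t * c) (s * b) (D a b c)|) +
      (∑ a ∈ Icc lo N, ∑ b ∈ Icc lo N, ∑ c ∈ Icc lo' m,
        |T3 (cut_ER2 lo N E p₂ q₂ h b) (cut_ER2 lo' m f p₃ q₃ h c) (cut_ER2 lo N g p₁ q₁ h a) X Y X b
          (s * t * c) (s * a) (s * D a b c)|) +
      (∑ a ∈ Icc lo N, ∑ b ∈ Icc lo N, ∑ c ∈ Icc lo' m,
        |T3 (cut_ER2 lo' m F p₃ q₃ h c) (cut_ER2 lo N g p₁ q₁ h a) (cut_ER2 lo N g p₂ q₂ h b) Y X X c
          (t * a) (t * s * b) (t * D a b c)|) := by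
    rw [← Finset.sum_add_distrib, ← Finset.sum_add_distrib]
    apply Finset.sum_le_sum
    intro a haa
    rw [← Finset.sum_add_distrib, ← Finset.sum_add_distrib]
    apply Finset.sum_le_sum
    intro b hbb
    rw [← Finset.sum_add_distrib, ← Finset.sum_add_distrib]
    apply Finset.sum_le_sum
    intro c hcc
    rw [← hcut E p₁ q₁ lo N a haa, ← hcut f p₃ q₃ lo' m c hcc, ← hcut f p₂ q₂ lo N b hbb,
      ← hcut E p₂ q₂ lo N b hbb, ← hcut g p₁ q₁ lo N a haa, ← hcut F p₃ q₃ lo' m c hcc,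
      ← hcut g p₂ q₂ lo N b hbb]
    rw [T3_tel_ER2, win_sub_ER2, win_sub_ER2, win_sub_ER2]
    have ss : s * s = 1 := by rcases hs with rfl | rfl <;> simp
    have tt : t * t = 1 := by rcases ht with rfl | rfl <;> simp
    have e1 : T3 (win (fun n => f n - g n) p₁ q₁ h a) (win f p₂ q₂ h b) (win f p₃ q₃ h c) X X Y a
        (s * b) (t * c) (D a b c) = T3 (win E p₁ q₁ h a) (win f p₃ q₃ h c) (win f p₂ q₂ h b) X Y X a
          (t * c) (s * b) (D a b c) := T3_sw23_ER2 _ _ _ _ _ _ _ _ _ _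
    have e2 : T3 (win g p₁ q₁ h a) (win (fun n => f n - g n) p₂ q₂ h b) (win f p₃ q₃ h c) X X Y a
        (s * b) (t * c) (D a b c) = T3 (win E p₂ q₂ h b) (win f p₃ q₃ h c) (win g p₁ q₁ h a) X Y X b
          (s * t * c) (s * a) (s * D a b c) := by
      rw [T3_sw12_ER2, T3_sw23_ER2, T3_sgn_ER2 _ _ _ _ _ _ _ _ _ _ s hs]
      rw [← mul_assoc s s, ss, one_mul, ← mul_assoc s t]
    have e3 : T3 (win g p₁ q₁ h a) (win g p₂ q₂ h b) (win (fun n => f n - k n) p₃ q₃ h c) X X Y a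
        (s * b) (t * c) (D a b c) = T3 (win F p₃ q₃ h c) (win g p₁ q₁ h a) (win g p₂ q₂ h b) Y X X c
          (t * a) (t * s * b) (t * D a b c) := by
      rw [T3_sw23_ER2, T3_sw12_ER2, T3_sgn_ER2 _ _ _ _ _ _ _ _ _ _ t ht]
      rw [← mul_assoc t t, tt, one_mul, ← mul_assoc t s]
    rw [e1, e2, e3]
    exact (abs_add_le _ _).trans (add_le_add_left (abs_add_le _ _) _)
  set R : ℝ := 7000 * M ^ 3 * (K : ℝ) ^ 3 * T * (1 + Real.log m) ^ 2 * (h : ℝ) ^ 2 *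
      √((N : ℝ) * m / h + δ) with hR
  have h1' : (∑ a ∈ Icc lo N, ∑ b ∈ Icc lo N, ∑ c ∈ Icc lo' m,
        |T3 (cut_ER2 lo N E p₁ q₁ h a) (cut_ER2 lo' m f p₃ q₃ h c) (cut_ER2 lo N f p₂ q₂ h b) X Y X a
          (t * c) (s * b) (D a b c)|) ≤ R := by
    rw [Finset.sum_congr rfl (fun a _ => Finset.sum_comm)]
    exact (enl_ER2 (fun a c b => |T3 (cut_ER2 lo N E p₁ q₁ h a) (cut_ER2 lo' m f p₃ q₃ h c)
      (cut_ER2 lo N f p₂ q₂ h b) X Y X a (t * c) (s * b) (D a b c)|) (fun _ _ _ => abs_nonneg _)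
      lo N lo' m lo N hlo hlo').trans h1
  have h2' : (∑ a ∈ Icc lo N, ∑ b ∈ Icc lo N, ∑ c ∈ Icc lo' m,
        |T3 (cut_ER2 lo N E p₂ q₂ h b) (cut_ER2 lo' m f p₃ q₃ h c) (cut_ER2 lo N g p₁ q₁ h a) X Y X b
          (s * t * c) (s * a) (s * D a b c)|) ≤ R := by
    rw [Finset.sum_comm, Finset.sum_congr rfl (fun b _ => Finset.sum_comm)]
    exact (enl_ER2 (fun b c a => |T3 (cut_ER2 lo N E p₂ q₂ h b) (cut_ER2 lo' m f p₃ q₃ h c)
      (cut_ER2 lo N g p₁ q₁ h a) X Y X b (s * t * c) (s * a) (s * D a b c)|)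
      (fun _ _ _ => abs_nonneg _) lo N lo' m lo N hlo hlo').trans h2
  have h3' : (∑ a ∈ Icc lo N, ∑ b ∈ Icc lo N, ∑ c ∈ Icc lo' m,
        |T3 (cut_ER2 lo' m F p₃ q₃ h c) (cut_ER2 lo N g p₁ q₁ h a) (cut_ER2 lo N g p₂ q₂ h b) Y X X c
          (t * a) (t * s * b) (t * D a b c)|) ≤ R := by
    rw [Finset.sum_congr rfl (fun a _ => Finset.sum_comm), Finset.sum_comm]
    exact (enl_ER2 (fun c a b => |T3 (cut_ER2 lo' m F p₃ q₃ h c) (cut_ER2 lo N g p₁ q₁ h a)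
      (cut_ER2 lo N g p₂ q₂ h b) Y X X c (t * a) (t * s * b) (t * D a b c)|)
      (fun _ _ _ => abs_nonneg _) lo' m lo N lo N hlo' hlo).trans h3
  refine h4.trans ((add_le_add (add_le_add h1' h2') h3').trans ?_)
  have hR0 : 0 ≤ M ^ 3 * (K : ℝ) ^ 3 * T * (1 + Real.log m) ^ 2 * (h : ℝ) ^ 2 *
      √((N : ℝ) * m / h + δ) := by positivity
  rw [hR]
  linarith

end Pool.Agent.Helper49.PB
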