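import Pool.Agent.Helper58.PB.StM

/-!
# Project PB, module MNT: the main term
-/

set_option autoImplicit false

namespace Pool.Agent.Helper49.PB

open Finset
open Pool.Agent.Helper58.PB
open Pool.Agent.Helper48.BK (AdN thd)
open Pool.Agent.Helper23.MV (PCh PS)

/-- quotients of consecutive multiples -/
theorem quot_MNT (a h : ℕ) (ha : 1 ≤ a) :
    8 * h / a ≤ 9 * h / a ∧ (h : ℝ) / a - 1 ≤ ((9 * h / a - 8 * h / a : ℕ) : ℝ) ∧
      ((9 * h / a - 8 * h / a : ℕ) : ℝ) ≤ (h : ℝ) / a + 1 := by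
  have ha0 : (0 : ℝ) < a := by exact_mod_cast ha
  have h1 : 8 * h / a ≤ 9 * h / a := Nat.div_le_div_right (by omega)
  have h2 : ((9 * h / a : ℕ) : ℝ) ≤ 9 * h / a := by
    have := @Nat.cast_div_le ℝ _ _ _ (9 * h) a
    push_cast at this
    exact this
  have h3 : ((8 * h / a : ℕ) : ℝ) ≤ 8 * h / a := by
    have := @Nat.cast_div_le ℝ _ _ _ (8 * h) a
    push_cast at this
    exact this
  have h4 : (9 * h / a : ℝ) < ((9 * h / a : ℕ) : ℝ) + 1 := by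
    rw [div_lt_iff₀ ha0]
    have := Nat.lt_mul_div_succ (9 * h) ha
    have h5 : ((9 * h : ℕ) : ℝ) < ((a * (9 * h / a + 1) : ℕ) : ℝ) := by exact_mod_cast this
    push_cast at h5
    linarith
  have h6 : (8 * h / a : ℝ) < ((8 * h / a : ℕ) : ℝ) + 1 := by
    rw [div_lt_iff₀ ha0]
    have := Nat.lt_mul_div_succ (8 * h) ha
    have h5 : ((8 * h : ℕ) : ℝ) < ((a * (8 * h / a + 1) : ℕ) : ℝ) := by exact_mod_cast this
    push_cast at h5
    linarith
  have e1 : (9 * h / a : ℝ) = 9 * ((h : ℝ) / a) := by ring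
  have e2 : (8 * h / a : ℝ) = 8 * ((h : ℝ) / a) := by ring
  rw [e1] at h2 h4
  rw [e2] at h3 h6
  refine ⟨h1, ?_, ?_⟩
  · rw [Nat.cast_sub h1]
    linarith
  · rw [Nat.cast_sub h1]
    linarith

/-- the quotient `I / B` for the cut -/
theorem cut_MNT (P u : ℝ) (a h X I : ℕ) (ha : 1 ≤ a) (hP : 100 ≤ P) (hu : u = (h : ℝ) / a)
    (hX : 28 * h ≤ a * X) (hX2 : P ^ 2000 ≤ X) (hI : (I : ℝ) ≤ u + 1) :
    1 ≤ ⌊(X : ℝ) / P ^ 500⌋₊ ∧ ((⌊(X : ℝ) / P ^ 500⌋₊ : ℕ) : ℝ) ≤ (X : ℝ) / P ^ 500 ∧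
      (I : ℝ) / (⌊(X : ℝ) / P ^ 500⌋₊ : ℕ) + 1 ≤ 3 * P ^ 500 := by
  have ha0 : (0 : ℝ) < a := by exact_mod_cast ha
  have hP0 : (0 : ℝ) < P := by linarith
  have hP1 : (1 : ℝ) ≤ P := by linarith
  have h500 : (0 : ℝ) < P ^ 500 := by positivity
  have h1 : P ^ 1500 ≤ (X : ℝ) / P ^ 500 := by
    rw [le_div_iff₀ h500, ← pow_add]
    exact hX2
  have h2 : (2 : ℝ) ≤ P ^ 1500 := by
    have : P ^ 1 ≤ P ^ 1500 := pow_le_pow_right₀ hP1 (by norm_num)
    rw [pow_one] at this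
    linarith
  have h3 : (X : ℝ) / P ^ 500 < (⌊(X : ℝ) / P ^ 500⌋₊ : ℕ) + 1 := Nat.lt_floor_add_one _
  have h4 : ((⌊(X : ℝ) / P ^ 500⌋₊ : ℕ) : ℝ) ≤ (X : ℝ) / P ^ 500 := Nat.floor_le (by positivity)
  have h5 : (1 : ℝ) < (⌊(X : ℝ) / P ^ 500⌋₊ : ℕ) := by linarith
  have h6 : (X : ℝ) / (2 * P ^ 500) ≤ (⌊(X : ℝ) / P ^ 500⌋₊ : ℕ) := by
    have : (X : ℝ) / (2 * P ^ 500) = (X : ℝ) / P ^ 500 / 2 := by
      field_simp
    rw [this]
    linarith
  have hXpos : (0 : ℝ) < X := lt_of_lt_of_le (by positivity) hX2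
  have hX100 : (100 : ℝ) ≤ X := by
    have : P ^ 1 ≤ P ^ 2000 := pow_le_pow_right₀ hP1 (by norm_num)
    rw [pow_one] at this
    linarith
  have h7 : u ≤ X / 28 := by
    rw [hu, div_le_div_iff₀ ha0 (by norm_num)]
    have : ((28 * h : ℕ) : ℝ) ≤ ((a * X : ℕ) : ℝ) := by exact_mod_cast hX
    push_cast at this
    linarith
  have h8 : (I : ℝ) ≤ X := by linarith
  refine ⟨by exact_mod_cast h5.le, h4, ?_⟩
  have h9 : (I : ℝ) / (⌊(X : ℝ) / P ^ 500⌋₊ : ℕ) ≤ 2 * P ^ 500 := by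
    rw [div_le_iff₀ (by linarith)]
    calc (I : ℝ) ≤ X := h8
      _ = 2 * P ^ 500 * ((X : ℝ) / (2 * P ^ 500)) := by field_simp
      _ ≤ _ := mul_le_mul_of_nonneg_left h6 (by positivity)
  have h10 : (1 : ℝ) ≤ P ^ 500 := one_le_pow₀ hP1
  linarith

/-- the final inequality -/
theorem fin_MNT (P T u v c W X Y I J : ℝ) (hP : 100 ≤ P) (hT : P⁻¹ ≤ T) (hc : 1 ≤ c)
    (hW : W = u * v / c) (hXu : X ≤ P * u) (hYv : Y ≤ P * v) (hX : P ^ 2000 ≤ X)
    (hY : P ^ 2000 ≤ Y) (hu : P ^ 2000 * u ≤ W) (hv : P ^ 2000 * v ≤ W) (hI : u - 1 ≤ I)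
    (hJ : v - 1 ≤ J) :
    T * W / 2 ≤ I * J * ((T - (P ^ 9)⁻¹) / c) -
      P ^ 460 * (X / P ^ 500 + Y / P ^ 500 + 1) * (3 * P ^ 500) * (3 * P ^ 500) := by
  have hP0 : (0 : ℝ) < P := by linarith
  have hP1 : (1 : ℝ) ≤ P := by linarith
  have hc0 : (0 : ℝ) < c := by linarith
  have hT0 : 0 < T := lt_of_lt_of_le (inv_pos.2 hP0) hT
  have hu1 : P ^ 1999 ≤ u := by
    have h1 : P * P ^ 1999 ≤ P * u := by
      calc P * P ^ 1999 = P ^ 2000 := by ring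
        _ ≤ P * u := hX.trans hXu
    exact le_of_mul_le_mul_left h1 hP0
  have hv1 : P ^ 1999 ≤ v := by
    have h1 : P * P ^ 1999 ≤ P * v := by
      calc P * P ^ 1999 = P ^ 2000 := by ring
        _ ≤ P * v := hY.trans hYv
    exact le_of_mul_le_mul_left h1 hP0
  have hbig : ∀ n : ℕ, n ≠ 0 → 100 ≤ P ^ n := by
    intro n hn
    have : P ^ 1 ≤ P ^ n := pow_le_pow_right₀ hP1 (Nat.one_le_iff_ne_zero.2 hn)
    rw [pow_one] at this
    linarith
  have hu16 : 16 ≤ u := by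
    have := hbig 1999 (by norm_num)
    linarith
  have hv16 : 16 ≤ v := by
    have := hbig 1999 (by norm_num)
    linarith
  have hu0 : 0 < u := by linarith
  have hv0 : 0 < v := by linarith
  have hW0 : 0 < W := by
    rw [hW]
    positivity
  -- error terms
  have e1 : P ^ 460 * (X / P ^ 500 + Y / P ^ 500 + 1) * (3 * P ^ 500) * (3 * P ^ 500) =
      9 * P ^ 960 * X + 9 * P ^ 960 * Y + 9 * P ^ 1460 := by
    field_simp
    ring
  have e2 : 9 * P ^ 960 * X ≤ W / P ^ 3 := by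
    rw [le_div_iff₀ (by positivity)]
    calc 9 * P ^ 960 * X * P ^ 3 ≤ 9 * P ^ 960 * (P * u) * P ^ 3 := by gcongr
      _ = (9 * P ^ 964) * u := by ring
      _ ≤ (P ^ 1 * P ^ 964) * u := by
          have : (9 : ℝ) ≤ P ^ 1 := by
            rw [pow_one]; linarith
          gcongr
      _ = P ^ 965 * u := by ring
      _ ≤ P ^ 2000 * u := by
          have : P ^ 965 ≤ P ^ 2000 := pow_le_pow_right₀ hP1 (by norm_num)
          gcongr
      _ ≤ W := hu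
  have e3 : 9 * P ^ 960 * Y ≤ W / P ^ 3 := by
    rw [le_div_iff₀ (by positivity)]
    calc 9 * P ^ 960 * Y * P ^ 3 ≤ 9 * P ^ 960 * (P * v) * P ^ 3 := by gcongr
      _ = (9 * P ^ 964) * v := by ring
      _ ≤ (P ^ 1 * P ^ 964) * v := by
          have : (9 : ℝ) ≤ P ^ 1 := by
            rw [pow_one]; linarith
          gcongr
      _ = P ^ 965 * v := by ring
      _ ≤ P ^ 2000 * v := by
          have : P ^ 965 ≤ P ^ 2000 := pow_le_pow_right₀ hP1 (by norm_num)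
          gcongr
      _ ≤ W := hv
  have e4 : 9 * P ^ 1460 ≤ W / P ^ 3 := by
    rw [le_div_iff₀ (by positivity)]
    have h1 : (1 : ℝ) ≤ P ^ 2000 := one_le_pow₀ hP1
    calc 9 * P ^ 1460 * P ^ 3 = 9 * P ^ 1463 := by ring
      _ ≤ P ^ 1 * P ^ 1463 := by
          have : (9 : ℝ) ≤ P ^ 1 := by
            rw [pow_one]; linarith
          gcongr
      _ = P ^ 1464 := by ring
      _ ≤ P ^ 1999 := pow_le_pow_right₀ hP1 (by norm_num)
      _ ≤ u := hu1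
      _ = 1 * u := (one_mul u).symm
      _ ≤ P ^ 2000 * u := by gcongr
      _ ≤ W := hu
  have e5 : 3 * (W / P ^ 3) ≤ T * W / 4 := by
    have h1 : 3 * (W / P ^ 3) ≤ P⁻¹ * W / 4 := by
      rw [show P⁻¹ * W / 4 = W / (4 * P) by field_simp, show 3 * (W / P ^ 3) = 3 * W / P ^ 3 by ring,
        div_le_div_iff₀ (by positivity) (by positivity)]
      have h2 : 12 ≤ P ^ 2 := by nlinarith
      have h3 : 0 ≤ W * P := by positivity
      calc 3 * W * (4 * P) = 12 * (W * P) := by ring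
        _ ≤ P ^ 2 * (W * P) := by gcongr
        _ = W * P ^ 3 := by ring
    refine h1.trans ?_
    gcongr
  -- main term
  have m1 : (15 / 16 : ℝ) * T ≤ T - (P ^ 9)⁻¹ := by
    have h1 : (P ^ 9)⁻¹ ≤ T / 16 := by
      have h2 : (P ^ 9)⁻¹ ≤ P⁻¹ / 16 := by
        rw [show P⁻¹ / 16 = (16 * P)⁻¹ by field_simp]
        apply inv_anti₀ (by positivity)
        calc 16 * P ≤ P ^ 8 * P := by
              have := hbig 8 (by norm_num)
              have h3 : (16 : ℝ) ≤ P ^ 8 := by linarith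
              gcongr
          _ = P ^ 9 := by ring
      refine h2.trans ?_
      gcongr
    linarith
  have m2 : (15 / 16 : ℝ) * u ≤ I := by linarith
  have m3 : (15 / 16 : ℝ) * v ≤ J := by linarith
  have m4 : 3 / 4 * (T * W) ≤ I * J * ((T - (P ^ 9)⁻¹) / c) := by
    calc 3 / 4 * (T * W) ≤ (15 / 16) * (15 / 16) * (15 / 16) * (T * W) := by
          have : 0 ≤ T * W := by positivity
          linarith
      _ = (15 / 16 * u) * (15 / 16 * v) * ((15 / 16 * T) / c) := by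
          rw [hW]
          ring
      _ ≤ I * J * ((T - (P ^ 9)⁻¹) / c) := by
          have hI0 : 0 ≤ I := le_trans (by positivity) m2
          have hJ0 : 0 ≤ J := le_trans (by positivity) m3
          have hT1 : 0 ≤ T - (P ^ 9)⁻¹ := le_trans (by positivity) m1
          exact mul_le_mul (mul_le_mul m2 m3 (by positivity) hI0)
            (div_le_div_of_nonneg_right m1 hc0.le) (by positivity) (mul_nonneg hI0 hJ0)
  rw [e1]
  linarith

theorem hMnt (hg : StBxg) (hs : StSbx) (hr : StRwb) : StMnt := by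
  obtain ⟨P0, hP0, hB⟩ := hg
  refine ⟨max P0 100, le_trans (by norm_num) (le_max_right _ _), ?_⟩
  intro P t a b c Q h X Y Z L₁ L₂ L₃ d hP ht1 ht0 ht2 ha hb hc hAd hd hQ1 hQ2 hτ hX hX1 hY hY1 hZ hZ1
    hXP hYP hZP hac hbc hlX hlY hlZ hL1 hL2 hL3 hD1 hD2 hD3
  have hP1 : P0 ≤ P := (le_max_left _ _).trans hP
  have hP2 : 100 ≤ P := (le_max_right _ _).trans hP
  have hPpos : (0 : ℝ) < P := by linarith
  have hP1' : (1 : ℝ) ≤ P := by linarith
  have ha0 : (0 : ℝ) < a := by exact_mod_cast ha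
  have hb0 : (0 : ℝ) < b := by exact_mod_cast hb
  have hc0 : (0 : ℝ) < c := by exact_mod_cast hc
  have hc1 : (1 : ℝ) ≤ c := by exact_mod_cast hc
  have hXr : (0 : ℝ) < X := lt_of_lt_of_le (by positivity) hXP
  have hh0 : (0 : ℝ) < h := by
    have h1 : (0 : ℝ) < P * h := lt_of_lt_of_le (by positivity) hX1
    exact (mul_pos_iff_of_pos_left hPpos).1 h1
  have hh : 1 ≤ h := by exact_mod_cast hh0
  obtain ⟨qa1, qa2, qa3⟩ := quot_MNT a h ha
  obtain ⟨qb1, qb2, qb3⟩ := quot_MNT b h hb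
  obtain ⟨ca1, ca2, ca3⟩ := cut_MNT P ((h : ℝ) / a) a h X (9 * h / a - 8 * h / a) ha hP2 rfl hX hXP qa3
  obtain ⟨cb1, cb2, cb3⟩ := cut_MNT P ((h : ℝ) / b) b h Y (9 * h / b - 8 * h / b) hb hP2 rfl hY hYP qb3
  rw [hr (Gr P Q L₁) (Gr P Q L₂) (Gr P Q L₃) X Y Z h a b c d ha hb hc hh hd hX hY hZ]
  set B₁ : ℕ := ⌊(X : ℝ) / P ^ 500⌋₊ with hB₁
  set B₂ : ℕ := ⌊(Y : ℝ) / P ^ 500⌋₊ with hB₂
  set I : ℕ := 9 * h / a - 8 * h / a with hI
  set J : ℕ := 9 * h / b - 8 * h / b with hJ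
  have hi : 8 * h / a + I = 9 * h / a := by omega
  have hj : 8 * h / b + J = 9 * h / b := by omega
  have hβ : (0 : ℝ) ≤ P ^ 460 * ((B₁ : ℝ) + B₂ + 1) := by positivity
  have hrp : P ^ (-9 : ℝ) = (P ^ 9)⁻¹ := by
    rw [show (-9 : ℝ) = -((9 : ℕ) : ℝ) by norm_num, Real.rpow_neg hPpos.le, Real.rpow_natCast]
  have hrp1 : P⁻¹ ≤ t ^ 3 := by
    rw [Real.rpow_neg_one] at ht1
    exact ht1
  have key := hs a b c (8 * h / a) I (8 * h / b) J B₁ B₂ d
    (fun v => Gr P Q L₁ v.1 * Gr P Q L₂ v.2 * Gr P Q L₃ (thd a b c d v).toNat)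
    ((t ^ 3 - (P ^ 9)⁻¹) / c) (P ^ 460 * ((B₁ : ℝ) + B₂ + 1)) ca1 cb1 hβ (by
      intro i' I' j' J' h1 h2 h3 h4 h5 h6
      have hI' : (I' : ℝ) ≤ B₁ := by exact_mod_cast h5
      have hJ' : (J' : ℝ) ≤ B₂ := by exact_mod_cast h6
      have w1 : 8 * h < a * (i' + 1) := by
        have := Nat.lt_mul_div_succ (8 * h) ha
        calc 8 * h < a * (8 * h / a + 1) := this
          _ ≤ a * (i' + 1) := Nat.mul_le_mul_left a (by omega)
      have w2 : a * (i' + I') ≤ 9 * h := by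
        calc a * (i' + I') ≤ a * (9 * h / a) := Nat.mul_le_mul_left a (by omega)
          _ ≤ 9 * h := Nat.mul_div_le _ _
      have w3 : 8 * h < b * (j' + 1) := by
        have := Nat.lt_mul_div_succ (8 * h) hb
        calc 8 * h < b * (8 * h / b + 1) := this
          _ ≤ b * (j' + 1) := Nat.mul_le_mul_left b (by omega)
      have w4 : b * (j' + J') ≤ 9 * h := by
        calc b * (j' + J') ≤ b * (9 * h / b) := Nat.mul_le_mul_left b (by omega)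
          _ ≤ 9 * h := Nat.mul_div_le _ _
      have h7 := hB P t a b c Q h X Y Z L₁ L₂ L₃ i' I' j' J' d hP1 ht0 ha hb hc hAd hd hQ1 hQ2 hτ hX hX1
        hY hY1 hZ hZ1 hXP hYP hZP hlX hlY hlZ hL1 hL2 hL3 hD1 hD2 hD3 w1 w2 w3 w4
        (hI'.trans ca2) (hJ'.trans cb2)
      rw [hrp] at h7
      refine le_trans ?_ h7
      have h8 : P ^ 460 * ((I' : ℝ) + J' + 1) ≤ P ^ 460 * ((B₁ : ℝ) + B₂ + 1) := by
        gcongr
      have h9 : (I' : ℝ) * J' * ((t ^ 3 - (P ^ 9)⁻¹) / c) =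
          (I' : ℝ) * J' / c * (t ^ 3 - (P ^ 9)⁻¹) := by ring
      rw [h9]
      linarith)
  refine le_trans ?_ key
  have hW : (h : ℝ) ^ 2 / (a * b * c) = (h : ℝ) / a * ((h : ℝ) / b) / c := by
    field_simp
  have f1 := fin_MNT P (t ^ 3) ((h : ℝ) / a) ((h : ℝ) / b) c ((h : ℝ) ^ 2 / (a * b * c)) X Y I J hP2
    hrp1 hc1 hW
    (by
      rw [show P * ((h : ℝ) / a) = P * h / a by ring, le_div_iff₀ ha0]
      linarith)
    (by
      rw [show P * ((h : ℝ) / b) = P * h / b by ring, le_div_iff₀ hb0]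
      linarith)
    hXP hYP
    (by
      rw [show P ^ 2000 * ((h : ℝ) / a) = (P ^ 2000 * h) / a by ring,
        div_le_div_iff₀ ha0 (by positivity)]
      calc P ^ 2000 * (h : ℝ) * ((a : ℝ) * b * c) = ((b : ℝ) * c * P ^ 2000) * ((h : ℝ) * a) := by ring
        _ ≤ (h : ℝ) * ((h : ℝ) * a) := by gcongr
        _ = (h : ℝ) ^ 2 * a := by ring)
    (by
      rw [show P ^ 2000 * ((h : ℝ) / b) = (P ^ 2000 * h) / b by ring,
        div_le_div_iff₀ hb0 (by positivity)]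
      calc P ^ 2000 * (h : ℝ) * ((a : ℝ) * b * c) = ((a : ℝ) * c * P ^ 2000) * ((h : ℝ) * b) := by ring
        _ ≤ (h : ℝ) * ((h : ℝ) * b) := by gcongr
        _ = (h : ℝ) ^ 2 * b := by ring)
    qa2 qb2
  have f2 : P ^ 460 * ((B₁ : ℝ) + B₂ + 1) * ((I : ℝ) / B₁ + 1) * ((J : ℝ) / B₂ + 1) ≤
      P ^ 460 * ((X : ℝ) / P ^ 500 + Y / P ^ 500 + 1) * (3 * P ^ 500) * (3 * P ^ 500) := by
    gcongr
  have f3 : t ^ 3 * (h : ℝ) ^ 2 / (2 * (a * b * c)) = t ^ 3 * ((h : ℝ) ^ 2 / (a * b * c)) / 2 := by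
    field_simp
  rw [f3]
  linarith

end Pool.Agent.Helper49.PB
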